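import Pool.Agent.H41.NAdic

set_option autoImplicit false

namespace Pool.Agent.Results.MP_8b2777_lc.Disproof

open Pool.Agent.H41.NAdic

/-- Assertion (a) fails for every N ≥ 2 that is not a prime power (for instance N = 6). -/
theorem result (N : ℕ) (hN : 2 ≤ N) (h : ¬ IsPrimePow N) :
    ∃ a : ℕ → Fin N, ¬ EvPer a ∧ ∀ B : ℝ, accPts N a ≠ Set.Icc B (1 - B) :=
  final N hN h

end Pool.Agent.Results.MP_8b2777_lc.Disproof
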